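import Pool.Agent.Helper25.HV.Base

/-!
# HV: block UIR (uniform integrability of the main part)
-/

open Finset MeasureTheory Filter Topology
open scoped ENNReal

namespace Pool.Agent.Helper78.HV

open Pool.Agent.Helper69.HG Pool.Agent.Helper25.HV

/-! ### Hölder -/

/-- Hölder with the exponents `4, 6, 14, 86` and a remainder for the measure. -/
theorem hold5 {α : Type*} [MeasurableSpace α] {μ : Measure α} {a f g h : α → ℂ} (ha : AEMeasurable a μ)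
    (hf : AEMeasurable f μ) (hg : AEMeasurable g μ) (hh : AEMeasurable h μ) {X : ℝ≥0∞}
    (ia : ∫⁻ t, ‖a t‖ₑ ^ 4 ∂μ ≤ X) (ip : ∫⁻ t, ‖f t‖ₑ ^ 6 ∂μ ≤ X) (ig : ∫⁻ t, ‖g t‖ₑ ^ 14 ∂μ ≤ X)
    (ih : ∫⁻ t, ‖h t‖ₑ ^ 86 ∂μ ≤ X) :
    ∫⁻ t, ‖a t * (f t * g t * h t)‖ₑ ^ 2 ∂μ ≤ X ^ (1805 / 1806 : ℝ) * μ Set.univ ^ (1 / 1806 : ℝ) := by
  let F : Fin 5 → α → ℝ≥0∞ := ![fun t => ‖a t‖ₑ ^ 4, fun t => ‖f t‖ₑ ^ 6, fun t => ‖g t‖ₑ ^ 14, fun t => ‖h t‖ₑ ^ 86,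
    fun _ => 1]
  let p : Fin 5 → ℝ := ![1 / 2, 1 / 3, 1 / 7, 1 / 43, 1 / 1806]
  have hF : ∀ i ∈ Finset.univ, AEMeasurable (F i) μ := by
    intro i _
    fin_cases i
    · exact ha.enorm.pow_const _
    · exact hf.enorm.pow_const _
    · exact hg.enorm.pow_const _
    · exact hh.enorm.pow_const _
    · exact aemeasurable_const
  have hp1 : ∑ i ∈ Finset.univ, p i = 1 := by
    rw [Fin.sum_univ_five]
    change (1 / 2 + 1 / 3 + 1 / 7 + 1 / 43 + 1 / 1806 : ℝ) = 1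
    norm_num
  have hp0 : ∀ i ∈ Finset.univ, 0 ≤ p i := by
    intro i _
    fin_cases i
    · change (0:ℝ) ≤ 1 / 2; norm_num
    · change (0:ℝ) ≤ 1 / 3; norm_num
    · change (0:ℝ) ≤ 1 / 7; norm_num
    · change (0:ℝ) ≤ 1 / 43; norm_num
    · change (0:ℝ) ≤ 1 / 1806; norm_num
  have hH := ENNReal.lintegral_prod_norm_pow_le (μ := μ) Finset.univ hF hp1 hp0
  have hroot : ∀ (x : ℝ≥0∞) (n : ℕ) (q : ℝ), (n : ℝ) * q = 2 → (x ^ n) ^ q = x ^ 2 := by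
    intro x n q hq
    rw [← ENNReal.rpow_natCast, ← ENNReal.rpow_mul, hq, ← ENNReal.rpow_natCast]
    norm_num
  have hprod : ∀ t, ∏ i, F i t ^ p i = ‖a t * (f t * g t * h t)‖ₑ ^ 2 := by
    intro t
    rw [Fin.prod_univ_five]
    change (‖a t‖ₑ ^ 4) ^ (1 / 2 : ℝ) * (‖f t‖ₑ ^ 6) ^ (1 / 3 : ℝ) * (‖g t‖ₑ ^ 14) ^ (1 / 7 : ℝ) *
      (‖h t‖ₑ ^ 86) ^ (1 / 43 : ℝ) * (1 : ℝ≥0∞) ^ (1 / 1806 : ℝ) = _
    rw [hroot _ 4 _ (by norm_num), hroot _ 6 _ (by norm_num), hroot _ 14 _ (by norm_num),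
      hroot _ 86 _ (by norm_num), ENNReal.one_rpow, mul_one, enorm_mul, enorm_mul, enorm_mul, mul_pow, mul_pow, mul_pow]
    ring
  simp only [hprod] at hH
  refine hH.trans ?_
  rw [Fin.prod_univ_five]
  change (∫⁻ t, ‖a t‖ₑ ^ 4 ∂μ) ^ (1 / 2 : ℝ) * (∫⁻ t, ‖f t‖ₑ ^ 6 ∂μ) ^ (1 / 3 : ℝ) *
    (∫⁻ t, ‖g t‖ₑ ^ 14 ∂μ) ^ (1 / 7 : ℝ) * (∫⁻ t, ‖h t‖ₑ ^ 86 ∂μ) ^ (1 / 43 : ℝ) *
    (∫⁻ _, 1 ∂μ) ^ (1 / 1806 : ℝ) ≤ _
  rw [lintegral_one]
  refine mul_le_mul' ?_ le_rfl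
  calc (∫⁻ t, ‖a t‖ₑ ^ 4 ∂μ) ^ (1 / 2 : ℝ) * (∫⁻ t, ‖f t‖ₑ ^ 6 ∂μ) ^ (1 / 3 : ℝ) *
      (∫⁻ t, ‖g t‖ₑ ^ 14 ∂μ) ^ (1 / 7 : ℝ) * (∫⁻ t, ‖h t‖ₑ ^ 86 ∂μ) ^ (1 / 43 : ℝ)
      ≤ X ^ (1 / 2 : ℝ) * X ^ (1 / 3 : ℝ) * X ^ (1 / 7 : ℝ) * X ^ (1 / 43 : ℝ) := by
        gcongr
    _ = X ^ (1805 / 1806 : ℝ) := by
        rw [← ENNReal.rpow_add_of_nonneg _ _ (by norm_num) (by norm_num),
          ← ENNReal.rpow_add_of_nonneg _ _ (by norm_num) (by norm_num),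
          ← ENNReal.rpow_add_of_nonneg _ _ (by norm_num) (by norm_num)]
        norm_num

/-! ### moments of one factor -/

lemma PbD_cont (D : Dat) (T : ℝ) (i : ℕ) : Continuous (PbD D T i) := by
  unfold PbD
  refine continuous_finsetSum _ fun p hp => ?_
  have hp0 : (p : ℂ) ≠ 0 := by
    have h1 : p ∈ AAD D T := (Finset.mem_filter.1 hp).1
    have hsub : AAD D T ⊆ Finset.Icc 1 ⌊T⌋₊ := by
      classical
      unfold AAD
      exact Finset.filter_subset _ _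
    have h2 := (Finset.mem_Icc.1 (hsub h1)).1
    have : p ≠ 0 := by omega
    exact_mod_cast this
  exact Continuous.const_cpow (by fun_prop) (Or.inl hp0)

/-- the monomials -/
noncomputable def sD (D : Dat) (N : ℕ) : Finset (Σ k : ℕ, Fin k → ℕ) :=
  (Finset.range (N + 1)).sigma fun k =>
    (Fintype.piFinset (fun _ : Fin k => Finset.Icc 1 D.B)).filter (fun i => ∑ j, i j ≤ N)

/-- the coefficients -/
noncomputable def cD (k Q : ℕ → ℝ) (m : Σ k : ℕ, Fin k → ℕ) : ℂ :=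
  ((1 / m.1.factorial : ℝ) : ℂ) * (((∏ j, k (m.2 j)) * Q (∑ j, m.2 j) : ℝ) : ℂ)

lemma RFf_eq (D : Dat) {N : ℕ} (k : ℕ → ℝ) {Q : ℕ → ℝ} (hQ : ∀ n, N < n → Q n = 0) (T t : ℝ) :
    RFf D N k Q T t = ∑ m ∈ sD D N, cD k Q m * ∏ j, PbD D T (m.2 j) t := by
  unfold RFf sD cD
  rw [Finset.sum_sigma]
  refine Finset.sum_congr rfl fun l _ => ?_
  rw [Finset.sum_filter, Finset.mul_sum]
  refine Finset.sum_congr rfl fun i _ => ?_
  split_ifs with h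
  · ring
  · rw [hQ _ (not_le.1 h)]; simp

lemma RFf_cont (D : Dat) {N : ℕ} (k : ℕ → ℝ) {Q : ℕ → ℝ} (hQ : ∀ n, N < n → Q n = 0) (T : ℝ) :
    Continuous (RFf D N k Q T) := by
  have e : RFf D N k Q T = fun t => ∑ m ∈ sD D N, cD k Q m * ∏ j, PbD D T (m.2 j) t := by
    funext t; exact RFf_eq D k hQ T t
  rw [e]
  exact continuous_finsetSum _ fun m _ => continuous_const.mul (continuous_finsetProd _ fun j _ => PbD_cont D T _)

/-- powers of monomials are monomials -/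
lemma pow_mono {r k : ℕ} (i : Fin k → ℕ) (f : ℕ → ℝ) :
    ∏ j : Fin (r * k), f (i (finProdFinEquiv.symm j).2) = (∏ j, f (i j)) ^ r := by
  rw [Equiv.prod_comp (finProdFinEquiv (m := r) (n := k)).symm (fun x : Fin r × Fin k => f (i x.2)),
    Fintype.prod_prod_type]
  simp

lemma sum_mono {r k : ℕ} (i : Fin k → ℕ) :
    ∑ j : Fin (r * k), i (finProdFinEquiv.symm j).2 = r * ∑ j, i j := by
  rw [Equiv.sum_comp (finProdFinEquiv (m := r) (n := k)).symm (fun x : Fin r × Fin k => i x.2),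
    Fintype.sum_prod_type]
  simp

/-- the moment of order `2 r` of one factor -/
theorem mom (hRM : RM2) {D : Dat} (hD : Ok D) {N r : ℕ} (hr : 1 ≤ r) (hN : r * N ≤ D.S) (k : ℕ → ℝ) {Q : ℕ → ℝ}
    (hQ : ∀ n, N < n → Q n = 0) :
    ∃ C T₀ : ℝ, 0 < C ∧ ∀ T : ℝ, T₀ ≤ T → ∫ t in T..(2 * T), ‖RFf D N k Q T t‖ ^ (2 * r) ≤ C * T := by
  obtain ⟨C, T₀, hC, h⟩ := hRM D hD
  obtain ⟨q, rfl⟩ : ∃ q, r = q + 1 := ⟨r - 1, by omega⟩
  set s := sD D N with hs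
  set K : ℝ := (s.card : ℝ) ^ (2 * q + 1) * ∑ m ∈ s, ‖cD k Q m‖ ^ (2 * q + 2) with hK
  have hK0 : 0 ≤ K := by positivity
  refine ⟨(K + 1) * C, max T₀ 1, by positivity, fun T hT => ?_⟩
  have hT0 : T₀ ≤ T := (le_max_left _ _).trans hT
  have hT1 : 1 ≤ T := (le_max_right _ _).trans hT
  have hmono : ∀ m ∈ s, ∫ t in T..(2 * T), (∏ j, ‖PbD D T (m.2 j) t‖) ^ (2 * q + 2) ≤ C * T := by
    intro m hm
    rw [hs, sD, Finset.mem_sigma, Finset.mem_filter, Fintype.mem_piFinset] at hm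
    obtain ⟨_, h3, h5⟩ := hm
    have h6 := h T hT0 ((q + 1) * m.1) (fun j => m.2 (finProdFinEquiv.symm j).2)
      (fun j => Finset.mem_Icc.1 (h3 _)) (by
        rw [sum_mono]
        exact (Nat.mul_le_mul_left _ h5).trans hN)
    refine le_trans (le_of_eq ?_) h6
    refine intervalIntegral.integral_congr fun t _ => ?_
    rw [pow_mono m.2 (fun n => ‖PbD D T n t‖), ← pow_mul]
    congr 1
    ring
  have hpt : ∀ t, ‖RFf D N k Q T t‖ ^ (2 * (q + 1)) ≤ (s.card : ℝ) ^ (2 * q + 1) *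
      ∑ m ∈ s, ‖cD k Q m‖ ^ (2 * q + 2) * (∏ j, ‖PbD D T (m.2 j) t‖) ^ (2 * q + 2) := by
    intro t
    rw [RFf_eq D k hQ, ← hs]
    have h1 : ‖∑ m ∈ s, cD k Q m * ∏ j, PbD D T (m.2 j) t‖ ≤
        ∑ m ∈ s, ‖cD k Q m‖ * ∏ j, ‖PbD D T (m.2 j) t‖ := by
      refine (norm_sum_le _ _).trans (Finset.sum_le_sum fun m _ => ?_)
      rw [norm_mul, norm_prod]
    have h2 : 2 * (q + 1) = (2 * q + 1) + 1 := by ring
    rw [h2]
    refine (pow_le_pow_left₀ (norm_nonneg _) h1 _).trans ?_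
    refine (pow_sum_le_card_mul_sum_pow (fun m _ =>
      mul_nonneg (norm_nonneg _) (Finset.prod_nonneg fun _ _ => norm_nonneg _)) (2 * q + 1)).trans (le_of_eq ?_)
    congr 1
    refine Finset.sum_congr rfl fun m _ => ?_
    rw [mul_pow]
  have hc1 : ∀ m, Continuous fun t => ‖cD k Q m‖ ^ (2 * q + 2) * (∏ j, ‖PbD D T (m.2 j) t‖) ^ (2 * q + 2) := fun m =>
    continuous_const.mul ((continuous_finsetProd _ fun j _ => (PbD_cont D T _).norm).pow _)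
  calc ∫ t in T..(2 * T), ‖RFf D N k Q T t‖ ^ (2 * (q + 1))
      ≤ ∫ t in T..(2 * T), (s.card : ℝ) ^ (2 * q + 1) *
        ∑ m ∈ s, ‖cD k Q m‖ ^ (2 * q + 2) * (∏ j, ‖PbD D T (m.2 j) t‖) ^ (2 * q + 2) := by
        refine intervalIntegral.integral_mono_on (by linarith) ?_ ?_ fun t _ => hpt t
        · exact ((RFf_cont D k hQ T).norm.pow _).intervalIntegrable _ _
        · exact (continuous_const.mul (continuous_finsetSum _ fun m _ => hc1 m)).intervalIntegrable _ _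
    _ = (s.card : ℝ) ^ (2 * q + 1) * ∑ m ∈ s, ‖cD k Q m‖ ^ (2 * q + 2) *
        ∫ t in T..(2 * T), (∏ j, ‖PbD D T (m.2 j) t‖) ^ (2 * q + 2) := by
        rw [intervalIntegral.integral_const_mul, intervalIntegral.integral_finsetSum fun m _ =>
          (hc1 m).intervalIntegrable _ _]
        congr 1
        refine Finset.sum_congr rfl fun m _ => ?_
        rw [intervalIntegral.integral_const_mul]
    _ ≤ (s.card : ℝ) ^ (2 * q + 1) * ∑ m ∈ s, ‖cD k Q m‖ ^ (2 * q + 2) * (C * T) := by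
        refine mul_le_mul_of_nonneg_left (Finset.sum_le_sum fun m hm => ?_) (by positivity)
        exact mul_le_mul_of_nonneg_left (hmono m hm) (by positivity)
    _ = K * (C * T) := by
        rw [hK, ← Finset.sum_mul, mul_assoc]
    _ ≤ (K + 1) * C * T := by
        have : 0 ≤ C * T := by positivity
        nlinarith

/-! ### the block -/

lemma lint_ii {f : ℝ → ℝ} (hf : Continuous f) (h0 : ∀ t, 0 ≤ f t) {T C : ℝ} (hT : 0 ≤ T)
    (h : ∫ t in T..(2 * T), f t ≤ C) {G : Set ℝ} (hG : G ⊆ Set.Icc T (2 * T)) :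
    ∫⁻ t in G, ENNReal.ofReal (f t) ≤ ENNReal.ofReal C := by
  refine (lintegral_mono_set hG).trans ?_
  rw [← ofReal_integral_eq_lintegral_ofReal (hf.integrableOn_Icc) (Filter.Eventually.of_forall h0)]
  apply ENNReal.ofReal_le_ofReal
  rw [integral_Icc_eq_integral_Ioc, ← intervalIntegral.integral_of_le (by linarith)]
  exact h

lemma lint_pow {f : ℝ → ℂ} (hf : Continuous f) {T C : ℝ} (hT : 0 ≤ T) (n : ℕ)
    (h : ∫ t in T..(2 * T), ‖f t‖ ^ n ≤ C) {G : Set ℝ} (hG : G ⊆ Set.Icc T (2 * T)) :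
    ∫⁻ t in G, ‖f t‖ₑ ^ n ≤ ENNReal.ofReal C := by
  have e : ∀ t, ‖f t‖ₑ ^ n = ENNReal.ofReal (‖f t‖ ^ n) := by
    intro t
    rw [ENNReal.ofReal_pow (norm_nonneg _), ofReal_norm]
  simp only [e]
  exact lint_ii (hf.norm.pow n) (fun t => pow_nonneg (norm_nonneg _) n) hT h hG

/-- **Block UIR.** -/
theorem uir (hRM : RM2) : UIR := by
  intro C ε' hC hε'
  obtain ⟨C1, T1, hC1, h1⟩ := mom hRM okA (N := dA.N1) (r := 3) (by norm_num)
    (show 3 * 28 ≤ 84 by norm_num) dA.k1 okA.Q1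
  obtain ⟨C2, T2, hC2, h2⟩ := mom hRM okA (N := dA.N2) (r := 7) (by norm_num)
    (show 7 * 12 ≤ 84 by norm_num) dA.k2 okA.Q2
  obtain ⟨C3, T3, hC3, h3⟩ := mom hRM okB (N := dB.N1) (r := 43) (by norm_num)
    (show 43 * 23 ≤ 1008 by norm_num) dB.k1 okB.Q1
  obtain ⟨M, hM1, hMC, hM2, hM3, hM4⟩ : ∃ M : ℝ, 1 ≤ M ∧ C ≤ M ∧ C1 ≤ M ∧ C2 ≤ M ∧ C3 ≤ M :=
    ⟨1 + C + C1 + C2 + C3, by linarith, by linarith, by linarith, by linarith, by linarith⟩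
  have hM0 : 0 < M := by linarith
  refine ⟨(ε' / M) ^ 1806, max 1 (max T1 (max T2 T3)), by positivity, fun T hT A hA h4 G hGm hG hv => ?_⟩
  have hTa : 1 ≤ T := (le_max_left _ _).trans hT
  have hTb : T1 ≤ T := ((le_max_left _ _).trans (le_max_right _ _)).trans hT
  have hTc : T2 ≤ T := ((le_max_left _ _).trans ((le_max_right _ _).trans (le_max_right _ _))).trans hT
  have hTd : T3 ≤ T := ((le_max_right _ _).trans ((le_max_right _ _).trans (le_max_right _ _))).trans hT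
  have hT0 : 0 < T := by linarith
  have hbd : ∀ {x : ℝ}, x ≤ M → x * T ≤ M * T := fun hx => mul_le_mul_of_nonneg_right hx hT0.le
  have c1 := RFf_cont dA dA.k1 okA.Q1 T
  have c2 := RFf_cont dA dA.k2 okA.Q2 T
  have c3 := RFf_cont dB dB.k1 okB.Q1 T
  have key := hold5 (μ := volume.restrict G) (a := A) hA.aemeasurable c1.aemeasurable c2.aemeasurable c3.aemeasurable
    (X := ENNReal.ofReal (M * T)) (lint_pow hA hT0.le 4 (h4.trans (hbd hMC)) hG)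
    (lint_pow c1 hT0.le 6 ((h1 T hTb).trans (hbd hM2)) hG) (lint_pow c2 hT0.le 14 ((h2 T hTc).trans (hbd hM3)) hG)
    (lint_pow c3 hT0.le 86 ((h3 T hTd).trans (hbd hM4)) hG)
  rw [Measure.restrict_apply_univ] at key
  have key2 : ∫⁻ t in G, ‖A t * RF2 T t‖ₑ ^ 2 ≤ ENNReal.ofReal (M * T) ^ (1805 / 1806 : ℝ) *
      volume G ^ (1 / 1806 : ℝ) := key
  refine key2.trans ((mul_le_mul' le_rfl (ENNReal.rpow_le_rpow hv (by norm_num))).trans ?_)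
  have hδ0 : (0:ℝ) ≤ (ε' / M) ^ 1806 * T := by positivity
  rw [ENNReal.ofReal_rpow_of_nonneg (by positivity) (by norm_num), ENNReal.ofReal_rpow_of_nonneg hδ0 (by norm_num),
    ← ENNReal.ofReal_mul (by positivity)]
  apply ENNReal.ofReal_le_ofReal
  rw [Real.mul_rpow hM0.le hT0.le, Real.mul_rpow (by positivity) hT0.le]
  have e1 : ((ε' / M) ^ 1806) ^ (1 / 1806 : ℝ) = ε' / M := by
    rw [← Real.rpow_natCast, ← Real.rpow_mul (by positivity)]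
    norm_num
  have e2 : T ^ (1805 / 1806 : ℝ) * T ^ (1 / 1806 : ℝ) = T := by
    rw [← Real.rpow_add hT0]
    norm_num
  have e3 : M ^ (1805 / 1806 : ℝ) ≤ M := by
    conv_rhs => rw [← Real.rpow_one M]
    exact Real.rpow_le_rpow_of_exponent_le hM1 (by norm_num)
  rw [e1]
  calc M ^ (1805 / 1806 : ℝ) * T ^ (1805 / 1806 : ℝ) * (ε' / M * T ^ (1 / 1806 : ℝ))
      = M ^ (1805 / 1806 : ℝ) * (ε' / M) * (T ^ (1805 / 1806 : ℝ) * T ^ (1 / 1806 : ℝ)) := by ring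
    _ = M ^ (1805 / 1806 : ℝ) * (ε' / M) * T := by rw [e2]
    _ ≤ M * (ε' / M) * T := by gcongr
    _ = ε' * T := by field_simp

end Pool.Agent.Helper78.HV
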